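import Pool.Agent.TH564.Idx4

/-!
# The bellows theorem for flexible polyhedra of finite volume in hyperbolic spaces,
# with vertices allowed on the absolute

The hyperbolic space of dimension `n = k + 1` is represented by its projective (Klein) model: the
open unit ball of the Euclidean space `Fin n → ℝ`.  The absolute is the unit sphere.  In this model
geodesic simplices are Euclidean simplices and geodesic rays are parts of Euclidean rays.

The combinatorial datum is an arbitrary integral simplicial cycle `c` of dimension `k = n - 1` on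
the vertices `Fin m`, given as a function on ordered simplices `σ : Fin (k+1) → Fin m`.  A finite
oriented closed simplicial pseudomanifold `K` is the special case in which `c` is the fundamental
cycle of `K`: value `1` on one positively oriented ordering of each facet of `K`, and `0` elsewhere.
-/

namespace Pool.Agent.Results.MP_424e3d_gt.BellowsIdeal

open MeasureTheory Set

/-! ### The combinatorial side -/

/-- The boundary of the chain `c` is zero: the pairing of `c` with the coboundary of each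
alternating cochain vanishes. -/
def IsCycle {k m : ℕ} (c : (Fin (k+1) → Fin m) → ℤ) : Prop :=
  ∀ f : (Fin k → Fin m) → ℤ,
    (∀ (τ : Fin k → Fin m) (π : Equiv.Perm (Fin k)),
      f (τ ∘ π) = ((Equiv.Perm.sign π : ℤˣ) : ℤ) * f τ) →
    ∑ σ : Fin (k+1) → Fin m, c σ * ∑ i : Fin (k+1), (-1 : ℤ) ^ (i : ℕ) * f (σ ∘ i.succAbove) = 0

/-- The closed simplex with vertex set `A`, in barycentric coordinates. -/
def face {m : ℕ} (A : Set (Fin m)) : Set (Fin m → ℝ) :=
  {w | (∀ v, 0 ≤ w v) ∧ ∑ v, w v = 1 ∧ ∀ v, v ∉ A → w v = 0}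

/-- The vertex `v` as a point of the geometric realisation. -/
def vertex {m : ℕ} (v : Fin m) : Fin m → ℝ := Pi.single v 1

/-! ### Hyperbolic space in the Klein model -/

/-- The Lorentz form on the space of dimension `n + 1`. -/
def lorentz {n : ℕ} (x y : Fin (n+1) → ℝ) : ℝ := -(x 0 * y 0) + ∑ i : Fin n, x i.succ * y i.succ

/-- The matrix `g` represents an isometry of hyperbolic space: it preserves the Lorentz form and
does not exchange the two sheets of the hyperboloid. -/
structure IsIsometry {n : ℕ} (g : Matrix (Fin (n+1)) (Fin (n+1)) ℝ) : Prop where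
  form : ∀ x y : Fin (n+1) → ℝ, lorentz (g.mulVec x) (g.mulVec y) = lorentz x y
  sheet : 0 < g 0 0

/-- The action of an isometry on the closed ball (hyperbolic space together with the absolute). -/
noncomputable def act {n : ℕ} (g : Matrix (Fin (n+1)) (Fin (n+1)) ℝ) (x : Fin n → ℝ) :
    Fin n → ℝ :=
  fun i => g.mulVec (Fin.cons 1 x) i.succ / g.mulVec (Fin.cons 1 x) 0

/-- The hyperbolic volume, as a measure on the Klein model. -/
noncomputable def hypVol (n : ℕ) : Measure (Fin n → ℝ) :=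
  ((volume : Measure (Fin n → ℝ)).restrict {x | ∑ i, (x i) ^ 2 < 1}).withDensity
    (fun x => ENNReal.ofReal ((1 - ∑ i, (x i) ^ 2) ^ (-((n : ℝ) + 1) / 2)))

/-! ### Polyhedra and flexions -/

/-- The map `P` (defined on the geometric realisation of the support of `c`) is a polyhedron with
vertices in hyperbolic space or on the absolute: it sends each simplex onto the geodesic simplex
spanned by the images of its vertices, which may be degenerate. -/
structure IsPolyhedron {k m : ℕ} (c : (Fin (k+1) → Fin m) → ℤ)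
    (P : (Fin m → ℝ) → (Fin (k+1) → ℝ)) : Prop where
  ball : ∀ σ, c σ ≠ 0 → ∀ w ∈ face (range σ), ∑ j, (P w j) ^ 2 ≤ 1
  geodesic : ∀ σ, c σ ≠ 0 → ∀ A ⊆ range σ,
    P '' face A = convexHull ℝ ((fun v => P (vertex v)) '' A)

/-- The family `P t`, `0 ≤ t ≤ 1`, is a flexion: every `P t` is a polyhedron, the vertices move
continuously, and every facet stays congruent to itself, that is, for every facet `σ` and every `t`
there is an isometry `g` taking the simplex `P 0 (σ)` to the simplex `P t (σ)`, vertex to vertex.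
In dimension three (`k = 2`) the isometry is asked to take the map `P 0` on `σ` to the map `P t` on
`σ`; this says that two facets with a common edge are hinged along this edge and do not slide along
it (which the vertices alone do not see when both ends of the edge are ideal). -/
structure IsFlexion {k m : ℕ} (c : (Fin (k+1) → Fin m) → ℤ)
    (P : ℝ → (Fin m → ℝ) → (Fin (k+1) → ℝ)) : Prop where
  polyhedron : ∀ t ∈ Icc (0:ℝ) 1, IsPolyhedron c (P t)
  continuous : ∀ σ, c σ ≠ 0 → ∀ i, ContinuousOn (fun t => P t (vertex (σ i))) (Icc (0:ℝ) 1)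
  congruent : ∀ σ, c σ ≠ 0 → ∀ t ∈ Icc (0:ℝ) 1, ∃ g : Matrix (Fin (k+2)) (Fin (k+2)) ℝ,
    IsIsometry g ∧ (∀ i, P t (vertex (σ i)) = act g (P 0 (vertex (σ i)))) ∧
      (k = 2 → ∀ w ∈ face (range σ), P t w = act g (P 0 w))

/-! ### The generalised oriented volume -/

open Classical in
/-- The algebraic intersection number of the geodesic ray from `x` in the direction `u` with the
oriented cycle `P(K)`: the facet `σ = (v₀, …, vₖ)` is met by the ray if `x + s u` lies in `P(σ)` for
some `s ≥ 0`, and then the sign of the intersection is the sign of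
`det (P v₀ - x, …, P vₖ - x)`. -/
noncomputable def rayNumber {k m : ℕ} (c : (Fin (k+1) → Fin m) → ℤ)
    (P : (Fin m → ℝ) → (Fin (k+1) → ℝ)) (x u : Fin (k+1) → ℝ) : ℤ :=
  ∑ σ : Fin (k+1) → Fin m,
    c σ * (SignType.sign (Matrix.det (Matrix.of (fun i => P (vertex (σ i)) - x))) : ℤ) *
      (if ∃ s : ℝ, 0 ≤ s ∧ x + s • u ∈ P '' face (range σ) then 1 else 0)

/-- `lam x` is, for almost every point `x` of hyperbolic space, the algebraic intersection number
of a generic geodesic ray from `x` to infinity with the cycle `P(K)`. -/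
def IsIndex {k m : ℕ} (c : (Fin (k+1) → Fin m) → ℤ) (P : (Fin m → ℝ) → (Fin (k+1) → ℝ))
    (lam : (Fin (k+1) → ℝ) → ℤ) : Prop :=
  ∀ᵐ x ∂(hypVol (k+1)), ∀ᵐ u ∂(volume : Measure (Fin (k+1) → ℝ)), rayNumber c P x u = lam x

/-- The polyhedron `P` has the generalised oriented volume `V`: the index function `lam` is well
defined almost everywhere, it is integrable, and its integral over hyperbolic space is `V`. -/
def HasVolume {k m : ℕ} (c : (Fin (k+1) → Fin m) → ℤ) (P : (Fin m → ℝ) → (Fin (k+1) → ℝ))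
    (V : ℝ) : Prop :=
  (∃ lam, IsIndex c P lam) ∧
  ∀ lam, IsIndex c P lam → Integrable (fun x => (lam x : ℝ)) (hypVol (k+1)) ∧
    ∫ x, (lam x : ℝ) ∂(hypVol (k+1)) = V

/-! ### Proof -/

section Proof

open Pool.Agent.TH564 Pool.Agent.W576 Pool.Agent.W31.Bel

lemma lorentz_eq {n : ℕ} (x y : Fin (n+1) → ℝ) : lorentz x y = lor x y := (lor_succ x y).symm

lemma IsIsometry.isLor {n : ℕ} {g : Matrix (Fin (n+1)) (Fin (n+1)) ℝ} (h : IsIsometry g) :
    IsLor g :=
  ⟨fun x y => by rw [← lorentz_eq, ← lorentz_eq]; exact h.form x y, h.sheet⟩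

lemma act_eq {n : ℕ} (g : Matrix (Fin (n+1)) (Fin (n+1)) ℝ) (x : Fin n → ℝ) :
    act g x = pact g x := rfl

lemma hypVol_eq (k : ℕ) : hypVol (k+1) = hypm k := by
  unfold hypVol hypm
  congr 1
  funext x
  congr 2
  push_cast
  ring

lemma vertex_mem {m : ℕ} {A : Set (Fin m)} {v : Fin m} (hv : v ∈ A) : vertex v ∈ face A := by
  refine ⟨fun j => ?_, ?_, fun j hj => ?_⟩
  · unfold vertex
    by_cases h : j = v
    · rw [h, Pi.single_eq_same]; exact zero_le_one
    · rw [Pi.single_eq_of_ne h]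
  · unfold vertex; simp
  · unfold vertex
    rw [Pi.single_eq_of_ne]
    rintro rfl; exact hj hv

lemma face_mono {m : ℕ} {A B : Set (Fin m)} (h : A ⊆ B) : face A ⊆ face B :=
  fun _ hw => ⟨hw.1, hw.2.1, fun v hv => hw.2.2 v (fun h' => hv (h h'))⟩

lemma image_face {k m : ℕ} {c : (Fin (k+1) → Fin m) → ℤ} {P : (Fin m → ℝ) → (Fin (k+1) → ℝ)}
    (h : IsPolyhedron c P) {σ : Fin (k+1) → Fin m} (hσ : c σ ≠ 0) :
    P '' face (range σ) = convexHull ℝ (range (fun i => P (vertex (σ i)))) := by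
  rw [h.geodesic σ hσ _ Subset.rfl, ← range_comp]
  rfl

lemma rayNumber_eq {k m : ℕ} {c : (Fin (k+1) → Fin m) → ℤ} {P : (Fin m → ℝ) → (Fin (k+1) → ℝ)}
    (h : IsPolyhedron c P) (hc : IsCycle c) :
    ∀ᵐ x : Fin (k+1) → ℝ, ∀ᵐ u : Fin (k+1) → ℝ,
      rayNumber c P x u = idx0 c (fun v => P (vertex v)) x := by
  filter_upwards [index_ae c hc (fun v => P (vertex v))] with x hx
  filter_upwards [hx] with u hu
  rw [← hu]
  unfold rayNumber
  refine Finset.sum_congr rfl (fun σ _ => ?_)
  by_cases hσ : c σ = 0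
  · rw [hσ]; simp
  · rw [image_face h hσ, mul_assoc]

lemma index_unique {k m : ℕ} {c : (Fin (k+1) → Fin m) → ℤ} {P : (Fin m → ℝ) → (Fin (k+1) → ℝ)}
    (h : IsPolyhedron c P) (hc : IsCycle c) :
    IsIndex c P (idx0 c (fun v => P (vertex v))) ∧ ∀ lam, IsIndex c P lam →
      (fun x => ((idx0 c (fun v => P (vertex v)) x : ℤ) : ℝ)) =ᵐ[hypVol (k+1)]
        (fun x => (lam x : ℝ)) := by
  have h1 : IsIndex c P (idx0 c (fun v => P (vertex v))) := by
    unfold IsIndex
    rw [hypVol_eq]
    exact (hypm_ac k).ae_le (rayNumber_eq h hc)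
  refine ⟨h1, fun lam hl => ?_⟩
  unfold IsIndex at h1 hl
  filter_upwards [h1, hl] with x hx1 hx2
  obtain ⟨u, hu1, hu2⟩ := (hx1.and hx2).exists
  rw [← hu1, hu2]

lemma hasVolume_of {k m : ℕ} (hk : 1 ≤ k) {c : (Fin (k+1) → Fin m) → ℤ}
    {P : (Fin m → ℝ) → (Fin (k+1) → ℝ)} (h : IsPolyhedron c P) (hc : IsCycle c) :
    HasVolume c P (∫ x, (idx0 c (fun v => P (vertex v)) x : ℝ) ∂(hypm k)) := by
  obtain ⟨h1, h2⟩ := index_unique h hc
  refine ⟨⟨_, h1⟩, fun lam hl => ?_⟩
  have h3 := h2 lam hl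
  have h4 := (int_idx0 hk c (fun v => P (vertex v)) (fun σ hσ i =>
    h.ball σ hσ _ (vertex_mem ⟨i, rfl⟩))).1
  rw [← hypVol_eq] at h4
  exact ⟨h4.congr h3, by rw [← hypVol_eq]; exact integral_congr_ae h3.symm⟩

/-- one isometry for each vertex set of a facet -/
lemma IsFlexion.exists_iso {k m : ℕ} {c : (Fin (k+1) → Fin m) → ℤ}
    {P : ℝ → (Fin m → ℝ) → (Fin (k+1) → ℝ)} (hP : IsFlexion c P) {s : Finset (Fin m)}
    (hs : s ∈ supp (altc c)) {t : ℝ} (ht : t ∈ Icc (0:ℝ) 1) :
    ∃ g : Matrix (Fin (k+2)) (Fin (k+2)) ℝ, IsLor g ∧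
      (∀ j ∈ s, P t (vertex j) = pact g (P 0 (vertex j))) ∧
      (k = 2 → ∀ w ∈ face (s : Set (Fin m)), P t w = pact g (P 0 w)) := by
  obtain ⟨σ, hσ, rfl⟩ := hs
  obtain ⟨π, hπ⟩ := altc_ne_zero c σ hσ
  obtain ⟨g, hg, h1, h2⟩ := hP.congruent _ hπ t ht
  have hr : range (σ ∘ π) = ((rng σ : Finset (Fin m)) : Set (Fin m)) := by
    unfold rng
    rw [Finset.coe_image, Finset.coe_univ, image_univ, Function.Surjective.range_comp π.surjective]
  refine ⟨g, hg.isLor, ?_, ?_⟩
  · intro j hj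
    have : j ∈ range (σ ∘ π) := by rw [hr]; exact hj
    obtain ⟨i, rfl⟩ := this
    exact h1 i
  · intro hk w hw
    rw [← hr] at hw
    exact h2 hk w hw

lemma supp_facet {k m : ℕ} {c : (Fin (k+1) → Fin m) → ℤ} {s : Finset (Fin m)}
    (hs : s ∈ supp (altc c)) :
    ∃ σ, c σ ≠ 0 ∧ range σ = ((s : Finset (Fin m)) : Set (Fin m)) := by
  obtain ⟨σ, hσ, rfl⟩ := hs
  obtain ⟨π, hπ⟩ := altc_ne_zero c σ hσ
  refine ⟨σ ∘ π, hπ, ?_⟩
  unfold rng
  rw [Finset.coe_image, Finset.coe_univ, image_univ, Function.Surjective.range_comp π.surjective]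

open Classical in
/-- the chosen isometries -/
noncomputable def iso {k m : ℕ} (c : (Fin (k+1) → Fin m) → ℤ)
    (P : ℝ → (Fin m → ℝ) → (Fin (k+1) → ℝ)) (hP : IsFlexion c P) (t : ℝ) (s : Finset (Fin m)) :
    Matrix (Fin (k+2)) (Fin (k+2)) ℝ :=
  if h : s ∈ supp (altc c) ∧ t ∈ Icc (0:ℝ) 1 then (hP.exists_iso h.1 h.2).choose else 1

lemma iso_spec {k m : ℕ} {c : (Fin (k+1) → Fin m) → ℤ}
    {P : ℝ → (Fin m → ℝ) → (Fin (k+1) → ℝ)} (hP : IsFlexion c P) {s : Finset (Fin m)}
    (hs : s ∈ supp (altc c)) {t : ℝ} (ht : t ∈ Icc (0:ℝ) 1) :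
    IsLor (iso c P hP t s) ∧
      (∀ j ∈ s, P t (vertex j) = pact (iso c P hP t s) (P 0 (vertex j))) ∧
      (k = 2 → ∀ w ∈ face (s : Set (Fin m)), P t w = pact (iso c P hP t s) (P 0 w)) := by
  unfold iso
  rw [dif_pos ⟨hs, ht⟩]
  exact (hP.exists_iso hs ht).choose_spec

lemma flexion_vhyp {r m : ℕ} (hr : 1 ≤ r) {c : (Fin (r+2) → Fin m) → ℤ}
    {P : ℝ → (Fin m → ℝ) → (Fin (r+2) → ℝ)} (hP : IsFlexion c P) :
    VHyp (altc c) (fun t v => P t (vertex v)) (iso c P hP) := by
  have hball : ∀ s ∈ supp (altc c), ∀ j ∈ s, ∀ t ∈ Icc (0:ℝ) 1,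
      ∑ k, (P t (vertex j) k) ^ 2 ≤ 1 := by
    intro s hs j hj t ht
    obtain ⟨σ, hσ, hrg⟩ := supp_facet hs
    refine (hP.polyhedron t ht).ball σ hσ _ (vertex_mem ?_)
    rw [hrg]; exact hj
  refine ⟨hball, ?_, fun s hs t ht => (iso_spec hP hs ht).1,
    fun s hs t ht j hj => (iso_spec hP hs ht).2.1 j hj, ?_⟩
  · intro s hs j hj
    obtain ⟨σ, hσ, hrg⟩ := supp_facet hs
    have : j ∈ range σ := by rw [hrg]; exact hj
    obtain ⟨i, rfl⟩ := this
    exact hP.continuous σ hσ i
  · intro τ p p' hp hp' hne i t ht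
    have hs : rng (Fin.cons p τ : Fin (r+2) → Fin m) ∈ supp (altc c) := ⟨_, hp, rfl⟩
    have hs' : rng (Fin.cons p' τ : Fin (r+2) → Fin m) ∈ supp (altc c) := ⟨_, hp', rfl⟩
    obtain ⟨g1, g2, g3⟩ := iso_spec hP hs ht
    obtain ⟨g1', g2', g3'⟩ := iso_spec hP hs' ht
    have hm : ∀ l, τ l ∈ rng (Fin.cons p τ : Fin (r+2) → Fin m) := mem_rng_cons2 p τ
    have hm' : ∀ l, τ l ∈ rng (Fin.cons p' τ : Fin (r+2) → Fin m) := mem_rng_cons2 p' τ
    have hb : ∀ l, ∑ k, (P 0 (vertex (τ l)) k) ^ 2 ≤ 1 := fun l =>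
      hball _ hs _ (hm l) 0 zero_memI
    rcases Nat.lt_or_ge 1 r with hr2 | hr2
    · -- dimension at least four: three vertices of the hinge
      obtain ⟨j, l, hij, hil, hjl⟩ : ∃ j l : Fin (r+1), i ≠ j ∧ i ≠ l ∧ j ≠ l := by
        obtain ⟨j, hj⟩ := Fintype.exists_ne_of_one_lt_card
          (by simp; omega : 1 < Fintype.card (Fin (r+1))) i
        obtain ⟨l, hl⟩ : ∃ l, l ∉ ({i, j} : Finset (Fin (r+1))) := by
          by_contra hcon
          push Not at hcon
          have h1 : ({i, j} : Finset (Fin (r+1))) = Finset.univ :=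
            Finset.eq_univ_iff_forall.2 hcon
          have h2 := Finset.card_le_two (a := i) (b := j)
          rw [h1, Finset.card_univ, Fintype.card_fin] at h2
          omega
        simp only [Finset.mem_insert, Finset.mem_singleton, not_or] at hl
        exact ⟨j, l, hj.symm, fun h => hl.1 h.symm, fun h => hl.2 h.symm⟩
      exact g1.lift_eq3 g1' (hb i) (hb j) (hb l) (hne i j hij) (hne i l hil) (hne j l hjl)
        (by rw [← g2 _ (hm i), ← g2' _ (hm' i)]) (by rw [← g2 _ (hm j), ← g2' _ (hm' j)])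
        (by rw [← g2 _ (hm l), ← g2' _ (hm' l)])
    · -- dimension three: the middle point of the hinge
      have hk2 : r + 1 = 2 := by omega
      obtain ⟨j, hj⟩ := Fintype.exists_ne_of_one_lt_card
          (by simp; omega : 1 < Fintype.card (Fin (r+1))) i
      have hmid : ∃ w ∈ face ({τ i, τ j} : Set (Fin m)),
          P 0 w = (1/2 : ℝ) • (P 0 (vertex (τ i)) + P 0 (vertex (τ j))) := by
        obtain ⟨σ, hσ, hrg⟩ := supp_facet hs
        have hsub : ({τ i, τ j} : Set (Fin m)) ⊆ range σ := by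
          rw [hrg]
          intro v hv
          rcases hv with rfl | rfl
          · exact hm i
          · exact hm j
        have h1 := (hP.polyhedron 0 zero_memI).geodesic σ hσ _ hsub
        have h2 : (1/2 : ℝ) • (P 0 (vertex (τ i)) + P 0 (vertex (τ j))) ∈
            convexHull ℝ ((fun v => P 0 (vertex v)) '' ({τ i, τ j} : Set (Fin m))) := by
          have m1 : P 0 (vertex (τ i)) ∈
              (fun v => P 0 (vertex v)) '' ({τ i, τ j} : Set (Fin m)) := ⟨τ i, by simp, rfl⟩
          have m2 : P 0 (vertex (τ j)) ∈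
              (fun v => P 0 (vertex v)) '' ({τ i, τ j} : Set (Fin m)) := ⟨τ j, by simp, rfl⟩
          rw [smul_add]
          exact (convex_convexHull ℝ _) (subset_convexHull ℝ _ m1)
            (subset_convexHull ℝ _ m2) (by norm_num) (by norm_num) (by norm_num)
        rw [← h1] at h2
        exact h2
      obtain ⟨w, hw, hwm⟩ := hmid
      have hw1 : w ∈ face ((rng (Fin.cons p τ : Fin (r+2) → Fin m) : Finset (Fin m)) :
          Set (Fin m)) := by
        refine face_mono ?_ hw
        intro v hv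
        rcases hv with rfl | rfl
        · exact hm i
        · exact hm j
      have hw2 : w ∈ face ((rng (Fin.cons p' τ : Fin (r+2) → Fin m) : Finset (Fin m)) :
          Set (Fin m)) := by
        refine face_mono ?_ hw
        intro v hv
        rcases hv with rfl | rfl
        · exact hm' i
        · exact hm' j
      refine g1.lift_eq g1' (hb i) (hb j) (hne i j hj.symm)
        (by rw [← g2 _ (hm i), ← g2' _ (hm' i)]) (by rw [← g2 _ (hm j), ← g2' _ (hm' j)]) ?_
      have e1 := g3 hk2 w hw1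
      have e2 := g3' hk2 w hw2
      rw [hwm] at e1 e2
      rw [← e1, ← e2]

end Proof

/-- **The bellows theorem for polyhedra with vertices in hyperbolic space or on the absolute.**
In the hyperbolic space of dimension `n = k + 1 ≥ 3` (in particular for `n = 2 j + 1`, `j ≥ 1`),
every polyhedron `P t` of a flexion has a (finite) generalised oriented volume, and this volume
does not depend on `t`. -/
theorem result (k m : ℕ) (hk : 2 ≤ k) (c : (Fin (k+1) → Fin m) → ℤ) (hc : IsCycle c)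
    (P : ℝ → (Fin m → ℝ) → (Fin (k+1) → ℝ)) (hP : IsFlexion c P) :
    ∃ V : ℝ, ∀ t ∈ Icc (0:ℝ) 1, HasVolume c (P t) V := by
  obtain ⟨r, rfl⟩ : ∃ r, k = r + 1 := ⟨k - 1, by omega⟩
  have hr : 1 ≤ r := by omega
  refine ⟨∫ x, (Pool.Agent.TH564.idx0 c (fun v => P 0 (vertex v)) x : ℝ)
    ∂(Pool.Agent.TH564.hypm (r+1)), fun t ht => ?_⟩
  have h1 := hasVolume_of (by omega) (hP.polyhedron t ht) hc
  have h2 := Pool.Agent.TH564.idx_bellows hr c hc (fun t v => P t (vertex v)) _
    (flexion_vhyp hr hP) (fun σ hσ i t ht => (hP.polyhedron t ht).ball σ hσ _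
      (vertex_mem ⟨i, rfl⟩)) ht
  rw [h2] at h1
  exact h1

end Pool.Agent.Results.MP_424e3d_gt.BellowsIdeal
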